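import Pool.Agent.N106.SLA.EV
import Pool.Agent.N136.SLX.VAL

/-!
# SLA (project SLA of helper637): general row sums and the density of the Selmer rank two

By helper106.
-/

set_option autoImplicit false

open scoped Classical

namespace Pool.Agent.N106.SLA.EV

open Finset Filter Topology
open Pool.Agent.N637.SLM (fkl S_ALT4 S_FKM S_EV)
open Pool.Agent.N637.SLK (plF lawF)
open Pool.Agent.N637.SLX (alt gl)

/-- the general row sum -/
theorem row {k : ℕ} (r : ℕ) (g : Fin k → ℕ → ℝ) :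
    HasSum (fun s : Fin k → ℕ => plF (r, s) * ∏ i, g i (s i))
      (fkl r * ∏ i, ∑ j ∈ range (r + 1), (alt r j : ℝ) / 2 ^ (r * (r - 1) / 2) * g i (r + j)) :=
  fib r g

lemma fkl_eq (r : ℕ) : fkl r = (∏' l : ℕ, (1 - (1 / 2 : ℝ) ^ (l + 1))) /
    (Pool.Agent.N75.SLX.qp r * (gl r : ℝ)) := by
  unfold fkl
  rw [Pool.Agent.N75.SLX.tail r, div_div]
  rfl

theorem fkl_one : fkl 1 = 2 * ∏' l : ℕ, (1 - (1 / 2 : ℝ) ^ (l + 1)) := by
  rw [fkl_eq, show gl 1 = 1 from rfl]
  have e : Pool.Agent.N75.SLX.qp 1 = 1 / 2 := by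
    unfold Pool.Agent.N75.SLX.qp
    rw [prod_range_one]
    norm_num
  rw [e]
  norm_num
  ring

theorem fkl_two : fkl 2 = 4 / 9 * ∏' l : ℕ, (1 - (1 / 2 : ℝ) ^ (l + 1)) := by
  rw [fkl_eq, show gl 2 = 6 from rfl]
  have e : Pool.Agent.N75.SLX.qp 2 = 3 / 8 := by
    unfold Pool.Agent.N75.SLX.qp
    rw [prod_range_succ, prod_range_one]
    norm_num
  rw [e]
  norm_num
  ring

/-- the density of the Selmer rank two (one curve) -/
theorem dens2 : ∀ (k : ℕ) (i : Fin k),
    HasSum (fun x : ℕ × (Fin k → ℕ) => plF x * (if x.2 i = 2 then 1 else 0))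
      (20 / 9 * ∏' l : ℕ, (1 - (1 / 2 : ℝ) ^ (l + 1))) := by
  intro k i
  refine one_mark (fun s => if s = 2 then 1 else 0) (fun s => by
    show (0 : ℝ) ≤ if s = 2 then 1 else 0
    split_ifs <;> norm_num) i ?_
  have h0 : ∀ r : ℕ, r ≠ 1 → r ≠ 2 → ph (fun s => if s = 2 then 1 else 0) r = 0 := by
    intro r h1 h2
    unfold ph
    refine sum_eq_zero fun j hj => ?_
    rw [mem_range] at hj
    show (alt r j : ℝ) / 2 ^ (r * (r - 1) / 2) * (if r + j = 2 then 1 else 0) = 0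
    rw [if_neg (by omega), mul_zero]
  have h1 : ph (fun s => if s = 2 then 1 else 0) 1 = 1 := by
    unfold ph
    rw [sum_range_succ, sum_range_one]
    simp [Pool.Agent.N136.SLX.alt11]
  have h2 : ph (fun s => if s = 2 then 1 else 0) 2 = 1 / 2 := by
    unfold ph
    rw [sum_range_succ, sum_range_succ, sum_range_one]
    simp [Pool.Agent.N136.SLX.alt20]
  have h3 : HasSum (fun r => fkl r * ph (fun s => if s = 2 then 1 else 0) r)
      (∑ r ∈ ({1, 2} : Finset ℕ), fkl r * ph (fun s => if s = 2 then 1 else 0) r) := by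
    refine hasSum_sum_of_ne_finset_zero fun r hr => ?_
    simp only [mem_insert, mem_singleton, not_or] at hr
    rw [h0 r hr.1 hr.2, mul_zero]
  have e : ∑ r ∈ ({1, 2} : Finset ℕ), fkl r * ph (fun s => if s = 2 then 1 else 0) r =
      20 / 9 * ∏' l : ℕ, (1 - (1 / 2 : ℝ) ^ (l + 1)) := by
    rw [sum_pair (by norm_num), h1, h2, fkl_one, fkl_two]
    ring
  rw [e] at h3
  exact h3

end Pool.Agent.N106.SLA.EV
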