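import Pool.Agent.N637.SLM.Stm5
import Pool.Agent.N222.SLK.Mass
import Pool.Agent.N570.SLX.Avg

/-!
# SLA/EV (project SLA of helper637): the means of the joint law

By helper106.
-/

set_option autoImplicit false

open scoped Classical

namespace Pool.Agent.N106.SLA.EV

open Finset Filter Topology
open Pool.Agent.N637.SLM (fkl S_ALT4 S_FKM S_EV)
open Pool.Agent.N637.SLK (plF lawF)
open Pool.Agent.N637.SLX (alt gl)

variable {k : ℕ}

/-- the mean of a function of one Selmer rank, given the 4-rank `r` -/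
noncomputable def ph (G : ℕ → ℝ) (r : ℕ) : ℝ :=
  ∑ j ∈ range (r + 1), (alt r j : ℝ) / 2 ^ (r * (r - 1) / 2) * G (r + j)

lemma lawF_eq (r : ℕ) (j : Fin k → ℕ) :
    lawF r j = fkl r * ∏ i, (alt r (j i) : ℝ) / 2 ^ (r * (r - 1) / 2) := by
  unfold lawF fkl
  ring

lemma law_sum (r : ℕ) (g : Fin k → ℕ → ℝ) :
    ∑ j ∈ Fintype.piFinset (fun _ : Fin k => range (r + 1)), lawF r j * ∏ i, g i (r + j i) =
      fkl r * ∏ i, ph (g i) r := by
  unfold ph
  rw [Finset.prod_univ_sum, mul_sum]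
  refine sum_congr rfl fun j _ => ?_
  rw [lawF_eq, mul_assoc, ← prod_mul_distrib]

lemma fib (r : ℕ) (g : Fin k → ℕ → ℝ) :
    HasSum (fun s : Fin k → ℕ => plF (r, s) * ∏ i, g i (s i)) (fkl r * ∏ i, ph (g i) r) := by
  rw [← law_sum]
  have h1 : ∑ j ∈ Fintype.piFinset (fun _ : Fin k => range (r + 1)),
      lawF r j * ∏ i, g i (r + j i) =
      ∑ s ∈ Fintype.piFinset (fun _ : Fin k => Icc r (2 * r)), plF (r, s) * ∏ i, g i (s i) := by
    refine sum_bij' (fun j _ i => r + j i) (fun s _ i => s i - r) ?_ ?_ ?_ ?_ ?_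
    · intro j hj
      rw [Fintype.mem_piFinset] at hj ⊢
      intro i
      have := mem_range.1 (hj i)
      rw [mem_Icc]
      omega
    · intro s hs
      rw [Fintype.mem_piFinset] at hs ⊢
      intro i
      have := mem_Icc.1 (hs i)
      rw [mem_range]
      omega
    · intro j hj
      funext i
      simp
    · intro s hs
      rw [Fintype.mem_piFinset] at hs
      funext i
      have := mem_Icc.1 (hs i)
      simp only
      omega
    · intro j hj
      rw [plF, if_pos (by intro i; simp)]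
      simp
  rw [h1]
  refine hasSum_sum_of_ne_finset_zero fun s hs => ?_
  have h0 : plF (r, s) = 0 := by
    unfold plF
    split_ifs with h
    · simp only at h ⊢
      rw [Fintype.mem_piFinset] at hs
      push Not at hs
      obtain ⟨i, hi⟩ := hs
      rw [mem_Icc, not_and_or] at hi
      have h2 := h i
      unfold lawF
      rw [Finset.prod_eq_zero (Finset.mem_univ i), zero_div, zero_mul]
      have h3 : alt r (s i - r) = 0 := Pool.Agent.N75.SLX.alt_zero (by omega)
      show (alt r (s i - r) : ℝ) / 2 ^ (r * (r - 1) / 2) = 0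
      rw [h3]
      simp
    · rfl
  rw [h0, zero_mul]

lemma plF_nonneg (a : ℕ × (Fin k → ℕ)) : 0 ≤ plF a := by
  unfold plF
  split_ifs
  · exact (Pool.Agent.N222.SLK.law_mem _ _).1
  · exact le_rfl

lemma prod_sum {β : Type} {f : ℕ × β → ℝ} (hf : ∀ a, 0 ≤ f a) {g : ℕ → ℝ} {c : ℝ}
    (h1 : ∀ r, HasSum (fun s => f (r, s)) (g r)) (h2 : HasSum g c) : HasSum f c := by
  have hs : Summable f := by
    rw [summable_prod_of_nonneg hf]
    refine ⟨fun r => (h1 r).summable, ?_⟩
    have : (fun r => ∑' s, f (r, s)) = g := funext fun r => (h1 r).tsum_eq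
    rw [this]
    exact h2.summable
  have h3 := hs.hasSum.prod_fiberwise h1
  have h4 := h3.unique h2
  rw [← h4]
  exact hs.hasSum

lemma ph_one (r : ℕ) : ph (fun _ => 1) r = 1 := by
  unfold ph
  simp only [mul_one]
  rw [← sum_div, Pool.Agent.N570.SLX.alt_one r]
  exact div_self (by positivity)

lemma ph_two (r : ℕ) : ph (fun s => 2 ^ s) r = 3 * 2 ^ r - 2 := by
  unfold ph
  have h := Pool.Agent.N570.SLX.alt_two r
  have h3 : (2 : ℝ) ^ (r * (r - 1) / 2) ≠ 0 := by positivity
  have h4 : ∑ j ∈ range (r + 1), (alt r j : ℝ) / 2 ^ (r * (r - 1) / 2) * 2 ^ (r + j) =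
      (∑ j ∈ range (r + 1), (alt r j : ℝ) * 2 ^ j * 2 ^ r) / 2 ^ (r * (r - 1) / 2) := by
    rw [sum_div]
    refine sum_congr rfl fun j _ => ?_
    rw [pow_add]
    ring
  rw [h4, h]
  field_simp

lemma ph_four (hA : S_ALT4) (r : ℕ) : ph (fun s => 4 ^ s) r = 15 * 4 ^ r - 30 * 2 ^ r + 16 := by
  unfold ph
  have h := hA r
  have h3 : (2 : ℝ) ^ (r * (r - 1) / 2) ≠ 0 := by positivity
  have h4 : ∑ j ∈ range (r + 1), (alt r j : ℝ) / 2 ^ (r * (r - 1) / 2) * 4 ^ (r + j) =
      (∑ j ∈ range (r + 1), (alt r j : ℝ) * 4 ^ j) * 4 ^ r / 2 ^ (r * (r - 1) / 2) := by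
    rw [sum_mul, sum_div]
    refine sum_congr rfl fun j _ => ?_
    rw [pow_add]
    ring
  have h5 : (4 : ℝ) ^ r = 2 ^ r * 2 ^ r := by rw [← mul_pow]; norm_num
  have h6 : (2 : ℝ) ^ r ≠ 0 := by positivity
  rw [h4, h, h5]
  field_simp

/-- one marked coordinate -/
lemma one_mark (G : ℕ → ℝ) (hG : ∀ s, 0 ≤ G s) (i : Fin k) {c : ℝ}
    (h : HasSum (fun r => fkl r * ph G r) c) :
    HasSum (fun x : ℕ × (Fin k → ℕ) => plF x * G (x.2 i)) c := by
  refine prod_sum (fun a => mul_nonneg (plF_nonneg a) (hG _)) (fun r => ?_) h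
  have h1 := fib r (fun i' : Fin k => if i' = i then G else fun _ => 1)
  have e1 : ∀ s : Fin k → ℕ, ∏ i', (if i' = i then G else fun _ => 1) (s i') = G (s i) := by
    intro s
    rw [Finset.prod_eq_single i (fun b _ hb => by rw [if_neg hb]) (fun hi => absurd (mem_univ i) hi),
      if_pos rfl]
  have e2 : ∏ i', ph (if i' = i then G else fun _ => 1) r = ph G r := by
    rw [Finset.prod_eq_single i (fun b _ hb => by rw [if_neg hb, ph_one])
      (fun hi => absurd (mem_univ i) hi), if_pos rfl]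
  rw [e2] at h1
  simp only [e1] at h1
  exact h1

/-- two marked coordinates -/
lemma two_mark (G : ℕ → ℝ) (hG : ∀ s, 0 ≤ G s) (i j : Fin k) (hij : i ≠ j) {c : ℝ}
    (h : HasSum (fun r => fkl r * (ph G r * ph G r)) c) :
    HasSum (fun x : ℕ × (Fin k → ℕ) => plF x * (G (x.2 i) * G (x.2 j))) c := by
  refine prod_sum (fun a => mul_nonneg (plF_nonneg a) (mul_nonneg (hG _) (hG _)))
    (fun r => ?_) h
  have h1 := fib r (fun i' : Fin k => if i' = i ∨ i' = j then G else fun _ => 1)
  have key : ∀ F : Fin k → ℝ, (∀ i', i' ≠ i → i' ≠ j → F i' = 1) → ∏ i', F i' = F i * F j := by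
    intro F hF
    rw [← Finset.prod_pair hij]
    symm
    refine Finset.prod_subset (subset_univ _) fun i' _ hi' => ?_
    simp only [mem_insert, mem_singleton, not_or] at hi'
    exact hF i' hi'.1 hi'.2
  have e1 : ∀ s : Fin k → ℕ, ∏ i', (if i' = i ∨ i' = j then G else fun _ => 1) (s i') =
      G (s i) * G (s j) := by
    intro s
    rw [key _ (fun i' h1 h2 => by rw [if_neg (by tauto)]), if_pos (Or.inl rfl),
      if_pos (Or.inr rfl)]
  have e2 : ∏ i', ph (if i' = i ∨ i' = j then G else fun _ => 1) r = ph G r * ph G r := by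
    rw [key _ (fun i' h1 h2 => by rw [if_neg (by tauto), ph_one]), if_pos (Or.inl rfl),
      if_pos (Or.inr rfl)]
  rw [e2] at h1
  simp only [e1] at h1
  exact h1

theorem t_EV : S_ALT4 → S_FKM → S_EV := by
  intro hA hF
  obtain ⟨f0, f1, f2, f4⟩ := hF
  refine ⟨f0, f1, f2, f4, fun k i => ?_, fun k i => ?_, fun k i j hij => ?_⟩
  · refine one_mark (fun s => 2 ^ s) (fun s => by positivity) i ?_
    have h := (f2.mul_left 3).sub (f1.mul_left 2)
    have e : (3 * 2 - 2 * 1 : ℝ) = 4 := by norm_num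
    rw [e] at h
    have e2 : (fun r => fkl r * ph (fun s => 2 ^ s) r) =
        fun r => 3 * (fkl r * 2 ^ r) - 2 * fkl r := by
      funext r
      rw [ph_two]
      ring
    rw [e2]
    exact h
  · refine one_mark (fun s => 4 ^ s) (fun s => by positivity) i ?_
    have h := ((f4.mul_left 15).sub (f2.mul_left 30)).add (f1.mul_left 16)
    have e : (15 * 5 - 30 * 2 + 16 * 1 : ℝ) = 31 := by norm_num
    rw [e] at h
    have e2 : (fun r => fkl r * ph (fun s => 4 ^ s) r) =
        fun r => 15 * (fkl r * 4 ^ r) - 30 * (fkl r * 2 ^ r) + 16 * fkl r := by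
      funext r
      rw [ph_four hA]
      ring
    rw [e2]
    exact h
  · refine two_mark (fun s => 2 ^ s) (fun s => by positivity) i j hij ?_
    have h := ((f4.mul_left 9).sub (f2.mul_left 12)).add (f1.mul_left 4)
    have e : (9 * 5 - 12 * 2 + 4 * 1 : ℝ) = 25 := by norm_num
    rw [e] at h
    have e2 : (fun r => fkl r * (ph (fun s => 2 ^ s) r * ph (fun s => 2 ^ s) r)) =
        fun r => 9 * (fkl r * 4 ^ r) - 12 * (fkl r * 2 ^ r) + 4 * fkl r := by
      funext r
      have h5 : (4 : ℝ) ^ r = 2 ^ r * 2 ^ r := by rw [← mul_pow]; norm_num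
      rw [ph_two, h5]
      ring
    rw [e2]
    exact h

end Pool.Agent.N106.SLA.EV
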